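import Pool.Agent.K3h44.RQ.Stm

/-!
# Brick APPR: an element all whose valuations are multiples of `p` can be made prime to `m`
-/

set_option autoImplicit false

namespace Pool.Agent.K3h20.RQ

open NumberField IsDedekindDomain HeightOneSpectrum

/-- elements with prescribed natural valuations at finitely many primes -/
theorem exists_val {R : Type} [CommRing R] [IsDedekindDomain R] (K : Type) [Field K] [Algebra R K]
    [IsFractionRing R K] (S : Finset (HeightOneSpectrum R)) (k : HeightOneSpectrum R → ℕ) :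
    ∃ a : R, ∀ P ∈ S, P.valuation K (algebraMap R K a) = WithZero.exp (-(k P : ℤ)) := by
  classical
  choose π hπ using fun P : HeightOneSpectrum R => P.intValuation_exists_uniformizer
  obtain ⟨y, hy⟩ := IsDedekindDomain.exists_forall_sub_mem_ideal (s := S)
    (fun P : HeightOneSpectrum R => P.asIdeal) (fun P => k P + 1) (fun P _ => P.prime)
    (fun P _ Q _ hPQ h => hPQ (HeightOneSpectrum.ext h)) (fun P => π P.1 ^ k P.1)
  refine ⟨y, fun P hP => ?_⟩
  have h1 := hy P hP
  rw [valuation_of_algebraMap]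
  simp only at h1
  have h2 : P.intValuation (y - π P ^ k P) ≤ WithZero.exp (-((k P + 1 : ℕ) : ℤ)) :=
    (intValuation_le_pow_iff_mem P _ _).2 h1
  have h3 : P.intValuation (π P ^ k P) = WithZero.exp (-(k P : ℤ)) := by
    rw [map_pow, hπ, ← WithZero.exp_nsmul]
    simp
  have h4 : P.intValuation (y - π P ^ k P) < P.intValuation (π P ^ k P) := by
    refine lt_of_le_of_lt h2 ?_
    rw [h3, WithZero.exp_lt_exp]
    push_cast
    linarith
  have h5 : y = (y - π P ^ k P) + π P ^ k P := by ring
  rw [h5, Valuation.map_add_eq_of_lt_right _ h4, h3]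

/-- Brick APPR. -/
theorem t_APPR : Pool.Agent.K3h44.RQ.S_APPR := by
  intro F _ _ m p hm hp x hx hv
  classical
  choose n hn using hv
  have hm0 : ((m : ℕ) : 𝓞 F) ≠ 0 := by exact_mod_cast hm
  have hfin : {P : HeightOneSpectrum (𝓞 F) | P.asIdeal ∣ Ideal.span {((m : ℕ) : 𝓞 F)}}.Finite :=
    Ideal.finite_factors (by simpa using hm0)
  have hmem : ∀ P : HeightOneSpectrum (𝓞 F), ((m : ℕ) : 𝓞 F) ∈ P.asIdeal → P ∈ hfin.toFinset := by
    intro P hP
    rw [Set.Finite.mem_toFinset]
    exact Ideal.dvd_span_singleton.2 hP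
  obtain ⟨a, ha⟩ := exists_val F hfin.toFinset (fun P => (n P).toNat)
  obtain ⟨a', ha'⟩ := exists_val F hfin.toFinset (fun P => (-n P).toNat)
  by_cases he : ∃ P : HeightOneSpectrum (𝓞 F), ((m : ℕ) : 𝓞 F) ∈ P.asIdeal
  · obtain ⟨P0, hP0⟩ := he
    have h1 : algebraMap (𝓞 F) F a ≠ 0 := by
      intro h
      have := ha P0 (hmem P0 hP0)
      rw [h, map_zero] at this
      exact WithZero.exp_ne_zero this.symm
    have h2 : algebraMap (𝓞 F) F a' ≠ 0 := by
      intro h
      have := ha' P0 (hmem P0 hP0)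
      rw [h, map_zero] at this
      exact WithZero.exp_ne_zero this.symm
    refine ⟨algebraMap (𝓞 F) F a / algebraMap (𝓞 F) F a', div_ne_zero h1 h2, fun P hP => ?_⟩
    have h3 : P.valuation F (algebraMap (𝓞 F) F a / algebraMap (𝓞 F) F a') =
        WithZero.exp (-n P) := by
      rw [map_div₀, ha P (hmem P hP), ha' P (hmem P hP), ← WithZero.exp_sub]
      congr 1
      omega
    rw [map_mul, map_pow, hn P, h3, ← WithZero.exp_nsmul, ← WithZero.exp_add]
    simp
  · refine ⟨1, one_ne_zero, fun P hP => (he ⟨P, hP⟩).elim⟩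

end Pool.Agent.K3h20.RQ
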