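import Pool.Agent.K3h44.RQ.Stm2

/-!
# Brick PRIM: the quadratic character of `ℚ(√d)` as a primitive even Dirichlet character
-/

set_option autoImplicit false

namespace Pool.Agent.K3h20.RQ

open Pool.Agent.K3h44.RQ

theorem lt_dsc {d : ℕ} (hd : 1 < d) : 1 < dsc d := by
  unfold dsc
  split_ifs <;> omega

theorem dvd_dsc (d : ℕ) : d ∣ dsc d := by
  unfold dsc
  split_ifs
  · exact dvd_rfl
  · exact Dvd.intro_left 4 rfl

theorem odd_of_cop {d t : ℕ} (h4 : ¬ d % 4 = 1) (h : t.Coprime (dsc d)) : Odd t := by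
  have h1 : t.Coprime (4 * d) := by
    have : dsc d = 4 * d := by unfold dsc; rw [if_neg h4]
    rwa [this] at h
  have h2 : t.Coprime 2 := h1.coprime_dvd_right ⟨2 * d, by ring⟩
  exact Nat.coprime_two_right.1 h2

theorem chi_pm {d t : ℕ} (h : t.Coprime (dsc d)) : chi d t = 1 ∨ chi d t = -1 := by
  have h1 : t.Coprime d := h.coprime_dvd_right (dvd_dsc d)
  unfold chi
  split_ifs
  · exact jacobiSym.eq_one_or_neg_one (by rw [Int.gcd_natCast_natCast]; exact h1)
  · exact jacobiSym.eq_one_or_neg_one (by rw [Int.gcd_natCast_natCast]; exact h1.symm)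

theorem chi_mod {d t t' : ℕ} (h : t.Coprime (dsc d)) (h' : t'.Coprime (dsc d))
    (he : t % dsc d = t' % dsc d) : chi d t = chi d t' := by
  by_cases h4 : d % 4 = 1
  · unfold chi
    rw [if_pos h4, if_pos h4]
    have hD : dsc d = d := by unfold dsc; rw [if_pos h4]
    rw [hD] at he
    apply jacobiSym.mod_left'
    exact_mod_cast he
  · have hD : dsc d = 4 * d := by unfold dsc; rw [if_neg h4]
    have ho := odd_of_cop h4 h
    have ho' := odd_of_cop h4 h'
    unfold chi
    rw [if_neg h4, if_neg h4, jacobiSym.mod_right' d ho, jacobiSym.mod_right' d ho', ← hD, he]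

theorem chi_mul {d t t' : ℕ} (ht : t ≠ 0) (ht' : t' ≠ 0) :
    chi d (t * t') = chi d t * chi d t' := by
  unfold chi
  split_ifs
  · push_cast
    exact jacobiSym.mul_left _ _ _
  · have : NeZero t := ⟨ht⟩
    have : NeZero t' := ⟨ht'⟩
    exact jacobiSym.mul_right _ _ _

theorem chi_one (d : ℕ) : chi d 1 = 1 := by
  unfold chi
  split_ifs
  · rw [Nat.cast_one]
    exact jacobiSym.one_left _
  · exact jacobiSym.one_right _

theorem ne_zero_of_cop {d t : ℕ} (hd : 1 < d) (h : t.Coprime (dsc d)) : t ≠ 0 := by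
  rintro rfl
  have := lt_dsc hd
  rw [Nat.coprime_zero_left] at h
  omega

open Classical in
/-- the character with values in `ℤ` -/
noncomputable def ch (d : ℕ) (hd : 1 < d) : MulChar (ZMod (dsc d)) ℤ where
  toFun x := if x.val.Coprime (dsc d) then chi d x.val else 0
  map_one' := by
    have h1 : (1 : ZMod (dsc d)).val = 1 := by
      rw [ZMod.val_one_eq_one_mod, Nat.mod_eq_of_lt (lt_dsc hd)]
    rw [h1, if_pos (Nat.coprime_one_left _), chi_one]
  map_mul' x y := by
    have hv : (x * y).val = x.val * y.val % dsc d := ZMod.val_mul x y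
    have hc : ((x * y).val).Coprime (dsc d) ↔ (x.val * y.val).Coprime (dsc d) := by
      rw [hv]
      unfold Nat.Coprime
      rw [← Nat.gcd_rec, Nat.gcd_comm]
    by_cases hx : x.val.Coprime (dsc d)
    · by_cases hy : y.val.Coprime (dsc d)
      · have hxy : (x.val * y.val).Coprime (dsc d) := Nat.Coprime.mul_left hx hy
        rw [if_pos (hc.2 hxy), if_pos hx, if_pos hy,
          ← chi_mul (ne_zero_of_cop hd hx) (ne_zero_of_cop hd hy)]
        exact chi_mod (hc.2 hxy) hxy (by rw [hv, Nat.mod_mod])
      · rw [if_neg (fun h => hy ((hc.1 h).coprime_mul_left)), if_neg hy, mul_zero]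
    · rw [if_neg (fun h => hx ((hc.1 h).coprime_mul_right)), if_neg hx, zero_mul]
  map_nonunit' x hx := by
    have : NeZero (dsc d) := ⟨by have := lt_dsc hd; omega⟩
    have h1 : ¬ x.val.Coprime (dsc d) := by
      intro h
      apply hx
      have := (ZMod.isUnit_iff_coprime x.val (dsc d)).2 h
      rwa [ZMod.natCast_zmod_val] at this
    exact if_neg h1

theorem ch_apply (d : ℕ) (hd : 1 < d) (t : ℕ) (h : t.Coprime (dsc d)) :
    ch d hd (t : ZMod (dsc d)) = chi d t := by
  classical
  have hv : (t : ZMod (dsc d)).val = t % dsc d := ZMod.val_natCast _ _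
  have h1 : (t % dsc d).Coprime (dsc d) := by
    unfold Nat.Coprime at h ⊢
    rw [← Nat.gcd_rec, Nat.gcd_comm]
    exact h
  show (if (t : ZMod (dsc d)).val.Coprime (dsc d) then chi d (t : ZMod (dsc d)).val else 0) = _
  rw [hv, if_pos h1]
  exact chi_mod h1 h (Nat.mod_mod _ _)

theorem even_chi {d : ℕ} (hd : 1 < d) : chi d (dsc d - 1) = 1 := by
  by_cases h4 : d % 4 = 1
  · have hD : dsc d = d := by unfold dsc; rw [if_pos h4]
    unfold chi
    rw [if_pos h4, hD]
    have h1 : jacobiSym ((d - 1 : ℕ) : ℤ) d = jacobiSym (-1) d := by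
      apply jacobiSym.mod_left'
      rw [Nat.cast_sub (by omega)]
      push_cast
      rw [show ((d : ℤ) - 1) = -1 + d by ring, Int.add_emod_right]
    rw [h1, jacobiSym.at_neg_one (Nat.odd_iff.2 (by omega)), ZMod.χ₄_nat_one_mod_four h4]
  · have hD : dsc d = 4 * d := by unfold dsc; rw [if_neg h4]
    unfold chi
    rw [if_neg h4, hD]
    have ho : Odd (4 * d - 1) := Nat.odd_iff.2 (by omega)
    have h1 : jacobiSym ((4 : ℤ) * (d : ℤ)) (4 * d - 1) = 1 := by
      rw [show jacobiSym ((4 : ℤ) * (d : ℤ)) (4 * d - 1) = jacobiSym 1 (4 * d - 1) from ?_,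
        jacobiSym.one_left]
      apply jacobiSym.mod_left'
      rw [Nat.cast_sub (by omega)]
      push_cast
      have e1 : (4 * (d : ℤ)) % (4 * d - 1) = (1 + (4 * d - 1)) % (4 * d - 1) := by
        congr 1
        ring
      rw [e1, Int.add_emod_right]
    rw [jacobiSym.mul_left, jacobiSym.at_four ho, one_mul] at h1
    exact h1

theorem exists_nonres (q : ℕ) (hq : q.Prime) (hq2 : q ≠ 2) : ∃ r : ℕ, jacobiSym (r : ℤ) q = -1 := by
  have : Fact q.Prime := ⟨hq⟩
  obtain ⟨a, ha⟩ := quadraticChar_exists_neg_one (F := ZMod q) (by rwa [ZMod.ringChar_zmod_n])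
  refine ⟨a.val, ?_⟩
  rw [← jacobiSym.legendreSym.to_jacobiSym]
  unfold legendreSym
  rw [Int.cast_natCast, ZMod.natCast_zmod_val]
  exact ha

/-- the elements `t` that show that the character is primitive -/
theorem exists_t {d : ℕ} (hd : 1 < d) (hsq : Squarefree d) (q : ℕ) (hq : q.Prime)
    (hqD : q ∣ dsc d) : ∃ t : ℕ, t.Coprime (dsc d) ∧ t % (dsc d / q) = 1 % (dsc d / q) ∧
      chi d t = -1 := by
  by_cases h2 : q = 2
  · subst h2
    have h4 : ¬ d % 4 = 1 := by
      intro h4
      have hD : dsc d = d := by unfold dsc; rw [if_pos h4]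
      rw [hD] at hqD
      omega
    have hD : dsc d = 4 * d := by unfold dsc; rw [if_neg h4]
    have h40 : ¬ d % 4 = 0 := by
      intro h0
      have h1 : 2 * 2 ∣ d := by omega
      have := hsq 2 h1
      rw [Nat.isUnit_iff] at this
      omega
    have hcop : (1 + 2 * d).Coprime (4 * d) := by
      have c1 : (1 + 2 * d).Coprime d := by
        rw [Nat.coprime_add_mul_right_left]
        exact Nat.coprime_one_left _
      have c2 : (1 + 2 * d).Coprime 2 := Nat.coprime_two_right.2 (Nat.odd_iff.2 (by omega))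
      have c3 : (1 + 2 * d).Coprime (2 * 2) := c2.mul_right c2
      exact Nat.Coprime.mul_right c3 c1
    refine ⟨1 + 2 * d, by rw [hD]; exact hcop, ?_, ?_⟩
    · rw [hD, show 4 * d / 2 = 2 * d by omega, Nat.add_mod_right]
    · unfold chi
      rw [if_neg h4]
      rcases (show d % 4 = 3 ∨ d % 2 = 0 by omega) with h3 | h3
      · rw [jacobiSym.quadratic_reciprocity_three_mod_four h3 (by omega),
          show jacobiSym ((1 + 2 * d : ℕ) : ℤ) d = jacobiSym 1 d from ?_, jacobiSym.one_left]
        apply jacobiSym.mod_left'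
        push_cast
        rw [Int.add_mul_emod_self_right]
      · obtain ⟨e, rfl⟩ : ∃ e, d = 2 * e := ⟨d / 2, by omega⟩
        have ho : Odd (1 + 2 * (2 * e)) := Nat.odd_iff.2 (by omega)
        push_cast
        rw [jacobiSym.mul_left, jacobiSym.at_two ho, jacobiSym.mod_right' e ho,
          show (1 + 2 * (2 * e)) % (4 * e) = 1 from ?_, jacobiSym.one_right, mul_one,
          ZMod.χ₈_nat_eq_if_mod_eight, if_neg (by omega), if_neg (by omega)]
        rw [show 1 + 2 * (2 * e) = 1 + 4 * e by ring, Nat.add_mod_right,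
          Nat.mod_eq_of_lt (by omega)]
  · obtain ⟨r, hr⟩ := exists_nonres q hq h2
    have hqo : Odd q := hq.odd_of_ne_two h2
    have hrq : ¬ q ∣ r := by
      intro h
      have : NeZero q := ⟨hq.ne_zero⟩
      have h0 : jacobiSym (r : ℤ) q = 0 := by
        rw [jacobiSym.eq_zero_iff_not_coprime, Int.gcd_natCast_natCast]
        rw [Nat.gcd_eq_right h]
        exact hq.one_lt.ne'
      rw [h0] at hr
      omega
    have hqd : q ∣ d := by
      by_cases h4 : d % 4 = 1
      · have hD : dsc d = d := by unfold dsc; rw [if_pos h4]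
        rwa [hD] at hqD
      · have hD : dsc d = 4 * d := by unfold dsc; rw [if_neg h4]
        rw [hD] at hqD
        rcases (Nat.Prime.dvd_mul hq).1 hqD with h | h
        · exfalso
          have : q ∣ 2 ^ 2 := by simpa using h
          exact h2 ((Nat.prime_dvd_prime_iff_eq hq Nat.prime_two).1 (hq.dvd_of_dvd_pow this))
        · exact h
    obtain ⟨e, he⟩ := hqd
    have hqe : q.Coprime e := by
      rw [he, Nat.squarefree_mul_iff] at hsq
      exact hsq.1
    by_cases h4 : d % 4 = 1
    · have hD : dsc d = d := by unfold dsc; rw [if_pos h4]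
      obtain ⟨t, ht1, ht2⟩ := Nat.chineseRemainder hqe r 1
      have hdq : d / q = e := by rw [he]; exact Nat.mul_div_cancel_left _ hq.pos
      have htq : ¬ q ∣ t := by
        intro h
        apply hrq
        exact (Nat.modEq_zero_iff_dvd.1 (ht1.symm.trans (Nat.modEq_zero_iff_dvd.2 h)))
      refine ⟨t, ?_, ?_, ?_⟩
      · rw [hD, he]
        refine Nat.Coprime.mul_right ((Nat.Prime.coprime_iff_not_dvd hq).2 htq).symm ?_
        have := ht2.gcd_eq
        rw [Nat.gcd_one_left] at this
        exact this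
      · rw [hD, hdq]
        exact ht2
      · unfold chi
        rw [if_pos h4, he]
        have : NeZero q := ⟨hq.ne_zero⟩
        have : NeZero e := ⟨by rintro rfl; rw [mul_zero] at he; omega⟩
        rw [jacobiSym.mul_right, show jacobiSym (t : ℤ) q = jacobiSym (r : ℤ) q from ?_,
          show jacobiSym (t : ℤ) e = jacobiSym 1 e from ?_, hr, jacobiSym.one_left, mul_one]
        · apply jacobiSym.mod_left'
          exact_mod_cast ht2
        · apply jacobiSym.mod_left'
          exact_mod_cast ht1
    · have hD : dsc d = 4 * d := by unfold dsc; rw [if_neg h4]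
      have hq4e : q.Coprime (4 * e) := by
        refine Nat.Coprime.mul_right ?_ hqe
        have : q.Coprime 2 := Nat.coprime_two_right.2 hqo
        exact (this.mul_right this)
      obtain ⟨t, ht1, ht2⟩ := Nat.chineseRemainder hq4e r 1
      have hdq : 4 * d / q = 4 * e := by
        rw [he, show 4 * (q * e) = q * (4 * e) by ring]
        exact Nat.mul_div_cancel_left _ hq.pos
      have htq : ¬ q ∣ t := by
        intro h
        apply hrq
        exact (Nat.modEq_zero_iff_dvd.1 (ht1.symm.trans (Nat.modEq_zero_iff_dvd.2 h)))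
      have hct : t.Coprime (4 * e) := by
        have := ht2.gcd_eq
        rw [Nat.gcd_one_left] at this
        exact this
      have he0 : e ≠ 0 := by rintro rfl; rw [mul_zero] at he; omega
      have ht4 : t % 4 = 1 := by
        have h5 : t ≡ 1 [MOD 4] := ht2.of_mul_right e
        exact h5
      refine ⟨t, ?_, ?_, ?_⟩
      · rw [hD, he, show 4 * (q * e) = q * (4 * e) by ring]
        exact Nat.Coprime.mul_right ((Nat.Prime.coprime_iff_not_dvd hq).2 htq).symm hct
      · rw [hD, hdq]
        exact ht2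
      · unfold chi
        have hto : Odd t := Nat.odd_iff.2 (by omega)
        rw [if_neg h4, he]
        push_cast
        rw [jacobiSym.mul_left, jacobiSym.quadratic_reciprocity_one_mod_four' hqo ht4,
          show jacobiSym (t : ℤ) q = jacobiSym (r : ℤ) q from ?_, hr, jacobiSym.mod_right' e hto,
          show t % (4 * e) = 1 from ?_, jacobiSym.one_right, mul_one]
        · have h6 : t % (4 * e) = 1 % (4 * e) := ht2
          rw [h6, Nat.mod_eq_of_lt (by omega)]
        · apply jacobiSym.mod_left'
          exact_mod_cast ht1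

/-- Brick PRIM. -/
theorem t_PRIM : Pool.Agent.K3h44.RQ.S_PRIM := by
  intro d hd hsq _
  have hD := lt_dsc hd
  have hval : ∀ t : ℕ, t.Coprime (dsc d) →
      (ch d hd).ringHomComp (Int.castRingHom ℂ) (t : ZMod (dsc d)) = ((chi d t : ℤ) : ℂ) := by
    intro t ht
    rw [MulChar.ringHomComp_apply, ch_apply d hd t ht]
    rfl
  have hprim : DirichletCharacter.IsPrimitive
      ((ch d hd).ringHomComp (Int.castRingHom ℂ) : DirichletCharacter ℂ (dsc d)) := by
    rw [DirichletCharacter.isPrimitive_def]
    by_contra hne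
    obtain ⟨f, hf⟩ : ∃ f, f = DirichletCharacter.conductor
      ((ch d hd).ringHomComp (Int.castRingHom ℂ) : DirichletCharacter ℂ (dsc d)) := ⟨_, rfl⟩
    rw [← hf] at hne
    have hfD : f ∣ dsc d := by rw [hf]; exact DirichletCharacter.conductor_dvd_level _
    obtain ⟨c, hc⟩ := hfD
    have hc1 : c ≠ 1 := by
      rintro rfl
      exact hne (by rw [hc, mul_one])
    obtain ⟨q, hq, hqc⟩ := Nat.exists_prime_and_dvd hc1
    have hqD : q ∣ dsc d := hqc.trans (Dvd.intro_left f hc.symm)
    have hfq : f ∣ dsc d / q := by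
      obtain ⟨c', rfl⟩ := hqc
      refine ⟨c', ?_⟩
      rw [hc, show f * (q * c') = q * (f * c') by ring]
      exact Nat.mul_div_cancel_left _ hq.pos
    obtain ⟨t, ht1, ht2, ht3⟩ := exists_t hd hsq q hq hqD
    have hft : DirichletCharacter.FactorsThrough
        ((ch d hd).ringHomComp (Int.castRingHom ℂ) : DirichletCharacter ℂ (dsc d)) f := by
      rw [hf]
      exact DirichletCharacter.factorsThrough_conductor _
    have hm := DirichletCharacter.FactorsThrough.mono _ hft hfq (Nat.div_dvd_of_dvd hqD)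
    rw [DirichletCharacter.factorsThrough_iff_ker_unitsMap (Nat.div_dvd_of_dvd hqD)] at hm
    have hk : ZMod.unitOfCoprime t ht1 ∈ (ZMod.unitsMap (Nat.div_dvd_of_dvd hqD)).ker := by
      rw [MonoidHom.mem_ker]
      ext
      have h5 := (ZMod.natCast_eq_natCast_iff' t 1 (dsc d / q)).2 ht2
      rw [ZMod.unitsMap_def, Units.coe_map, ZMod.coe_unitOfCoprime, Units.val_one]
      show ZMod.castHom (Nat.div_dvd_of_dvd hqD) (ZMod (dsc d / q)) (t : ZMod (dsc d)) = 1
      rw [map_natCast, h5, Nat.cast_one]
    have h2 := hm hk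
    rw [MonoidHom.mem_ker] at h2
    have h3 := congrArg (fun u : ℂˣ => (u : ℂ)) h2
    simp only [MulChar.coe_toUnitHom, ZMod.coe_unitOfCoprime, Units.val_one] at h3
    rw [hval t ht1, ht3] at h3
    norm_num at h3
  refine ⟨(ch d hd).ringHomComp (Int.castRingHom ℂ), hprim, ?_, ?_, hval⟩
  · intro h
    rw [h] at hprim
    rw [DirichletCharacter.isPrimitive_def, DirichletCharacter.conductor_one] at hprim
    omega
  · have h1 : (-1 : ZMod (dsc d)) = ((dsc d - 1 : ℕ) : ZMod (dsc d)) := by
      rw [Nat.cast_sub hD.le, ZMod.natCast_self, Nat.cast_one, zero_sub]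
    have h2 : (dsc d - 1).Coprime (dsc d) := by
      have := Nat.coprime_self_add_left (m := dsc d - 1) (n := 1)
      have h3 : dsc d = (dsc d - 1) + 1 := by omega
      rw [h3, Nat.add_sub_cancel]
      exact (Nat.coprime_self_add_right.2 (Nat.coprime_one_right _))
    rw [h1, hval _ h2, even_chi hd]
    norm_num

end Pool.Agent.K3h20.RQ
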